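import Pool.Agent.Lib.MP_edb5be_nt.TS.IfaceF

/-!
Project TS, second stage: first hitting times modulo `m`, and deviations of the order `√(log n)`.
-/

set_option autoImplicit false

namespace Pool.Agent.Lib.MP_edb5be_nt.TS

open Finset Filter Topology Pool.Agent.Lib.MP_0a5adf_nt.TP Pool.Agent.Lib.MP_edb5be_nt.ND
  Pool.Agent.Lib.MP_edb5be_nt.ND.H82

/-- PER: a family that is periodic in time has asymptotically equal block proportions. -/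
def PERStatement : Prop :=
  ∀ (d : Bool) (B : ℕ → Set ℕ) (lo m : ℕ), 0 < m → InvF d B lo → (∀ t, B (t + m) = B t) →
    ∀ t : ℕ, Tendsto (fun u : ℝ => Gd (B (t + 1)) u - Gd (B t) u) atTop (𝓝 0)

/-- `k` is the time of the first visit of the trajectory of `n` to `W`. -/
def First (d : Bool) (W : Set ℕ) (n k : ℕ) : Prop :=
  (T d)^[k] n ∈ W ∧ ∀ i < k, (T d)^[i] n ∉ W

/-- The numbers that visit `W` for the first time at a time `k ≤ t`, `k ≡ c` modulo `m`. -/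
def RchM (d : Bool) (W : Set ℕ) (m c t : ℕ) : Set ℕ :=
  {n : ℕ | ∃ k : ℕ, k ≤ t ∧ First d W n k ∧ k ≡ c [MOD m]}

/-- GBM: Gaussian law of the hitting time, in the classes modulo `m`, in blocks. -/
def GBMStatement : Prop :=
  ∀ (d : Bool) (W : Set ℕ) (D : ℝ), W.Finite → Tendsto (Gd (Hit d W)) atTop (𝓝 D) →
    ∀ m : ℕ, 0 < m → ∀ (z : ℝ) (t c : ℝ → ℕ), AsymT z t →
      Tendsto (fun u : ℝ => Gd (RchM d W m (c u) (t u)) u) atTop (𝓝 (D / m * PhiG z))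

/-- The conditions on the path with fixed times and thresholds. -/
def PathBM (d : Bool) (W : Set ℕ) (m c r : ℕ) (K : ℕ → ℕ) (y : ℕ → ℝ) (b : ℝ) : Set ℕ :=
  {n : ℕ | (∀ i < r, Real.logb 2 ((T d)^[K (i + 1)] n) - Real.logb 2 ((T d)^[K i] n) ≤ y i) ∧
    ∃ t : ℕ, (t : ℝ) ≤ Real.logb 2 ((T d)^[K r] n) / mu + b ∧ First d W ((T d)^[K r] n) t ∧
      K r + t ≡ c [MOD m]}

/-- FDDM: the joint law in blocks. -/
def FDDMStatement : Prop :=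
  ∀ (d : Bool) (W : Set ℕ) (D : ℝ), W.Finite → Tendsto (Gd (Hit d W)) atTop (𝓝 D) →
    ∀ m : ℕ, 0 < m → ∀ c : ℕ,
    ∀ (r : ℕ) (α z : ℕ → ℝ), α 0 = 1 → (∀ i < r, α (i + 1) < α i) → 0 < α r →
    ∀ (K : ℕ → ℝ → ℕ) (y : ℕ → ℝ → ℝ) (b : ℝ → ℝ), (∀ u, K 0 u = 0) →
    (∀ i < r, ∀ u, K i u ≤ K (i + 1) u) →
    (∃ R : ℝ, ∀ i ≤ r, ∀ᶠ u : ℝ in atTop, |u - mu * K i u - α i * u| ≤ R * √u) →
    (∀ i < r, Tendsto (fun u : ℝ => (y i u + mu * ((K (i + 1) u : ℝ) - K i u) -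
      z i * (th / 2) * √((K (i + 1) u : ℝ) - K i u)) / √u) atTop (𝓝 0)) →
    Tendsto (fun u : ℝ => (mu * b u - z r * (th / 2) * √(α r * u / mu)) / √u) atTop (𝓝 0) →
    ∀ j k a : ℕ, Tendsto (fun u : ℝ =>
      Gd {n : ℕ | n ∈ PathBM d W m c r (fun i => K i u) (fun i => y i u) (b u) ∧
        n ≡ a [MOD 2 ^ j * 3 ^ k]} u) atTop
      (𝓝 (D / (m * 2 ^ j * 3 ^ k) * ∏ i ∈ range (r + 1), PhiG (z i)))

/-- The conditions on the path: the increments of `log n` over the time intervals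
`[s i * log n, s (i + 1) * log n]`, `i < r`, and the time of the first visit to `W`. -/
def PathCM (d : Bool) (W : Set ℕ) (m c r : ℕ) (s z : ℕ → ℝ) (n : ℕ) : Prop :=
  (∀ i < r, Real.log ((T d)^[⌊s (i + 1) * Real.log n⌋₊] n) -
      Real.log ((T d)^[⌊s i * Real.log n⌋₊] n) + nu * (s (i + 1) - s i) * Real.log n ≤
      z i * (Real.log 3 / 2) * √((s (i + 1) - s i) * Real.log n)) ∧
  ∃ t : ℕ, (t : ℝ) ≤ ⌊s r * Real.log n⌋₊ + Real.log ((T d)^[⌊s r * Real.log n⌋₊] n) / nu +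
      z r * bb * √((1 - nu * s r) * Real.log n) ∧ First d W n t ∧ t ≡ c [MOD m]

/-- DWM: the joint law, natural density; and the law of the hitting time modulo `m`. -/
def DWMStatement : Prop :=
  ∀ (d : Bool) (W : Set ℕ) (D : ℝ), W.Finite → HasDensN (Hit d W) D →
    ∀ m : ℕ, 0 < m → ∀ c j k a : ℕ,
      HasDensN {n : ℕ | n ≡ a [MOD 2 ^ j * 3 ^ k] ∧ ∃ t : ℕ, First d W n t ∧ t ≡ c [MOD m]}
        (D / (m * 2 ^ j * 3 ^ k)) ∧
      ∀ (r : ℕ) (s z : ℕ → ℝ), s 0 = 0 → (∀ i < r, s i < s (i + 1)) → nu * s r < 1 →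
        HasDensN {n : ℕ | n ≡ a [MOD 2 ^ j * 3 ^ k] ∧ PathCM d W m c r s z n}
          (D / (m * 2 ^ j * 3 ^ k) * ∏ i ∈ range (r + 1), PhiG (z i))

open Classical in
/-- BCS: sharp form of BC (no factor `a`). -/
def BCSStatement : Prop :=
  ∀ A : ℕ, ∃ (C : ℝ) (a₀ : ℕ), 0 < C ∧ ∀ (d : Bool) (a k : ℕ) (E : Set ℕ) (p : ℝ), a₀ ≤ a →
    k ≤ a / 20 → (∀ m n : ℕ, m ≡ n [MOD 2 ^ k] → (m ∈ E ↔ n ∈ E)) →
    (((range (2 ^ k)).filter fun r => r ∈ E).card : ℝ) ≤ p * 2 ^ k →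
    ∀ u : ℝ, (a : ℝ) ≤ u → Gd (HB d a E) u ≤ C * (p + 1 / (a : ℝ) ^ A)

/-- LINES: deviations of the order `√(log n)`. -/
def LineSStatement : Prop :=
  ∀ (d : Bool) (g ψ : ℕ → ℝ), Tendsto g atTop atTop → Tendsto ψ atTop atTop →
    HasDensN {n : ℕ | ∀ k : ℕ, (∀ j ≤ k, g n ≤ (((T d)^[j] n : ℕ) : ℝ)) →
      |Real.log ((T d)^[k] n) - (Real.log n - nu * k)| ≤ ψ n * √(Real.log n)} 1

/-- NORMALS: equidistribution modulo `2 ^ l`, deviations of the order `√(log n)`. -/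
def NormalSStatement : Prop :=
  ∀ (d : Bool) (g ψ : ℕ → ℝ), Tendsto g atTop atTop → Tendsto ψ atTop atTop → ∀ l a : ℕ,
    HasDensN {n : ℕ | ∀ k : ℕ, (∀ j < k, g n ≤ (((T d)^[j] n : ℕ) : ℝ)) →
      |((((range k).filter fun j => (T d)^[j] n ≡ a [MOD 2 ^ l]).card : ℕ) : ℝ) -
        (k : ℝ) / 2 ^ l| ≤ ψ n * √(Real.log n)} 1

end Pool.Agent.Lib.MP_edb5be_nt.TS
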