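import Pool.Agent.Lib.MP_edb5be_nt.TS.Iface2

/-!
Project TS, third stage: the joint law for the invariant sets, with the time to fall below `g n`.
-/

set_option autoImplicit false

namespace Pool.Agent.Lib.MP_edb5be_nt.TS

open Finset Filter Topology Pool.Agent.Lib.MP_0a5adf_nt.TP Pool.Agent.Lib.MP_edb5be_nt.ND
  Pool.Agent.Lib.MP_edb5be_nt.ND.H82

/-- GSU: the law of the time to fall below `2 ^ lo`, uniformly, in blocks. -/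
def GSUStatement : Prop :=
  ∀ (d : Bool) (S : Set ℕ) (lo₀ : ℕ) (D : ℝ), InvA d S lo₀ → Tendsto (Gd S) atTop (𝓝 D) →
    ∀ z ε : ℝ, 0 < ε → ∃ (η : ℝ) (L : ℕ), 0 < η ∧ ∀ᶠ x : ℝ in atTop, ∀ lo t : ℕ, L ≤ lo →
      (lo : ℝ) ≤ η * √x → |mu * t - x - z * (th / 2 * √(x / mu))| ≤ η * √x →
      |Gd (Fll d S lo t) x - D * PhiG z| ≤ ε

/-- The conditions on the path with fixed times and thresholds, for the time of the fall below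
`2 ^ lo`. -/
def PathBS (d : Bool) (S : Set ℕ) (lo r : ℕ) (K : ℕ → ℕ) (y : ℕ → ℝ) (b : ℝ) : Set ℕ :=
  {n : ℕ | n ∈ S ∧
    (∀ i < r, Real.logb 2 ((T d)^[K (i + 1)] n) - Real.logb 2 ((T d)^[K i] n) ≤ y i) ∧
    ∃ t : ℕ, (t : ℝ) ≤ Real.logb 2 ((T d)^[K r] n) / mu + b ∧ (T d)^[K r + t] n < 2 ^ lo}

/-- FDDS: the joint law in blocks, invariant sets. -/
def FDDSStatement : Prop :=
  ∀ (d : Bool) (S : Set ℕ) (lo₀ : ℕ) (D : ℝ), InvA d S lo₀ → Tendsto (Gd S) atTop (𝓝 D) →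
    ∀ lo : ℝ → ℕ, Tendsto lo atTop atTop → Tendsto (fun u : ℝ => (lo u : ℝ) / √u) atTop (𝓝 0) →
    ∀ (r : ℕ) (α z : ℕ → ℝ), α 0 = 1 → (∀ i < r, α (i + 1) < α i) → 0 < α r →
    ∀ (K : ℕ → ℝ → ℕ) (y : ℕ → ℝ → ℝ) (b : ℝ → ℝ), (∀ u, K 0 u = 0) →
    (∀ i < r, ∀ u, K i u ≤ K (i + 1) u) →
    (∃ R : ℝ, ∀ i ≤ r, ∀ᶠ u : ℝ in atTop, |u - mu * K i u - α i * u| ≤ R * √u) →
    (∀ i < r, Tendsto (fun u : ℝ => (y i u + mu * ((K (i + 1) u : ℝ) - K i u) -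
      z i * (th / 2) * √((K (i + 1) u : ℝ) - K i u)) / √u) atTop (𝓝 0)) →
    Tendsto (fun u : ℝ => (mu * b u - z r * (th / 2) * √(α r * u / mu)) / √u) atTop (𝓝 0) →
    ∀ j k a : ℕ, Tendsto (fun u : ℝ =>
      Gd {n : ℕ | n ∈ PathBS d S (lo u) r (fun i => K i u) (fun i => y i u) (b u) ∧
        n ≡ a [MOD 2 ^ j * 3 ^ k]} u) atTop
      (𝓝 (D / (2 ^ j * 3 ^ k) * ∏ i ∈ range (r + 1), PhiG (z i)))

/-- The conditions on the path: the increments of `log n` over the time intervals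
`[s i * log n, s (i + 1) * log n]`, `i < r`, and the time to fall below `g n`. -/
def PathCS (d : Bool) (g : ℕ → ℝ) (r : ℕ) (s z : ℕ → ℝ) (n : ℕ) : Prop :=
  (∀ i < r, Real.log ((T d)^[⌊s (i + 1) * Real.log n⌋₊] n) -
      Real.log ((T d)^[⌊s i * Real.log n⌋₊] n) + nu * (s (i + 1) - s i) * Real.log n ≤
      z i * (Real.log 3 / 2) * √((s (i + 1) - s i) * Real.log n)) ∧
  ∃ t : ℕ, (t : ℝ) ≤ ⌊s r * Real.log n⌋₊ + Real.log ((T d)^[⌊s r * Real.log n⌋₊] n) / nu +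
      z r * bb * √((1 - nu * s r) * Real.log n) ∧ (((T d)^[t] n : ℕ) : ℝ) < g n

/-- DWS: the joint law, natural density, invariant sets. -/
def DWSStatement : Prop :=
  ∀ (d : Bool) (S : Set ℕ) (lo₀ : ℕ) (D : ℝ), InvA d S lo₀ → HasDensN S D →
    ∀ g : ℕ → ℝ, Tendsto g atTop atTop →
    Tendsto (fun n : ℕ => Real.log (g n) / √(Real.log n)) atTop (𝓝 0) →
    ∀ (r : ℕ) (s z : ℕ → ℝ), s 0 = 0 → (∀ i < r, s i < s (i + 1)) → nu * s r < 1 →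
    ∀ j k a : ℕ, HasDensN {n : ℕ | n ∈ S ∧ n ≡ a [MOD 2 ^ j * 3 ^ k] ∧ PathCS d g r s z n}
      (D / (2 ^ j * 3 ^ k) * ∏ i ∈ range (r + 1), PhiG (z i))

end Pool.Agent.Lib.MP_edb5be_nt.TS
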