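import Pool.Agent.Lib.MP_edb5be_nt.TS.Iface

/-!
Project TS: the joint law in blocks (statement).
-/

set_option autoImplicit false

namespace Pool.Agent.Lib.MP_edb5be_nt.TS

open Finset Filter Topology Pool.Agent.Lib.MP_0a5adf_nt.TP Pool.Agent.Lib.MP_edb5be_nt.ND
  Pool.Agent.Lib.MP_edb5be_nt.ND.H82

/-- The conditions on the path with fixed times `K i` and thresholds `y i`, `c` (base 2
logarithms). -/
def PathB (d : Bool) (W : Set ℕ) (r : ℕ) (K : ℕ → ℕ) (y : ℕ → ℝ) (c : ℝ) : Set ℕ :=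
  {n : ℕ | (∀ i < r, Real.logb 2 ((T d)^[K (i + 1)] n) - Real.logb 2 ((T d)^[K i] n) ≤ y i) ∧
    ∃ t : ℕ, (t : ℝ) ≤ Real.logb 2 ((T d)^[K r] n) / mu + c ∧ (T d)^[K r + t] n ∈ W}

/-- FDD: the joint law in blocks. -/
def FDDStatement : Prop :=
  ∀ (d : Bool) (W : Set ℕ) (D : ℝ), W.Finite → Tendsto (Gd (Hit d W)) atTop (𝓝 D) →
    ∀ (r : ℕ) (α z : ℕ → ℝ), α 0 = 1 → (∀ i < r, α (i + 1) < α i) → 0 < α r →
    ∀ (K : ℕ → ℝ → ℕ) (y : ℕ → ℝ → ℝ) (c : ℝ → ℝ), (∀ u, K 0 u = 0) →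
    (∀ i < r, ∀ u, K i u ≤ K (i + 1) u) →
    (∃ R : ℝ, ∀ i ≤ r, ∀ᶠ u : ℝ in atTop, |u - mu * K i u - α i * u| ≤ R * √u) →
    (∀ i < r, Tendsto (fun u : ℝ => (y i u + mu * ((K (i + 1) u : ℝ) - K i u) -
      z i * (th / 2) * √((K (i + 1) u : ℝ) - K i u)) / √u) atTop (𝓝 0)) →
    Tendsto (fun u : ℝ => (mu * c u - z r * (th / 2) * √(α r * u / mu)) / √u) atTop (𝓝 0) →
    ∀ j k a : ℕ, Tendsto (fun u : ℝ =>
      Gd {n : ℕ | n ∈ PathB d W r (fun i => K i u) (fun i => y i u) (c u) ∧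
        n ≡ a [MOD 2 ^ j * 3 ^ k]} u) atTop
      (𝓝 (D / (2 ^ j * 3 ^ k) * ∏ i ∈ range (r + 1), PhiG (z i)))

end Pool.Agent.Lib.MP_edb5be_nt.TS
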