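import Pool.Agent.Lib.MP_edb5be_nt.ND.Iface2
import Pool.Agent.Lib.MP_edb5be_nt.ND.H82.BinCLT

/-!
Project TS (MP_edb5be_nt): the total stopping time. Definitions and statements of the modules.

`T d`, `th`, `mu`, `sg` : `TP.Defs`; `Gd`, `PJ`, `bw`, `InvA`, `Hit`, `HasDensN`, `HasDens` : `ND`;
`PhiG` (the distribution function of the normal law), `binCLT` : `ND.H82.BinCLT`.
-/

set_option autoImplicit false

namespace Pool.Agent.Lib.MP_edb5be_nt.TS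

open Finset Filter Topology Pool.Agent.Lib.MP_0a5adf_nt.TP Pool.Agent.Lib.MP_edb5be_nt.ND
  Pool.Agent.Lib.MP_edb5be_nt.ND.H82

/-- `B t` is a family of sets with `n ∈ B (t + 1) ↔ T n ∈ B t` above `2 ^ lo`. -/
def InvF (d : Bool) (B : ℕ → Set ℕ) (lo : ℕ) : Prop :=
  ∀ n : ℕ, 2 ^ lo ≤ n → ∀ t : ℕ, (n ∈ B (t + 1) ↔ T d n ∈ B t)

/-- TGPF: space-time harmonicity of the block proportions. -/
def TGPFStatement : Prop :=
  ∀ A : ℕ, ∃ C u₀ : ℝ, 0 < C ∧ ∀ (d : Bool) (B : ℕ → Set ℕ) (lo t J : ℕ) (u : ℝ),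
    u₀ ≤ u → (lo : ℝ) ≤ 9 / 10 * u → InvF d B lo → (J : ℝ) ≤ u / 20 → u ^ (1 / 4 : ℝ) ≤ t →
    |Gd (B (t + J)) u - PJ J (Gd (B t)) u| ≤ C / u ^ A

/-- KMF: `K` steps. -/
def KMFStatement : Prop :=
  ∃ C u₀ : ℝ, 0 < C ∧ ∀ (d : Bool) (B : ℕ → Set ℕ) (lo t K : ℕ) (u : ℝ),
    u₀ ≤ u → InvF d B lo → max (√u) (10 / 9 * lo) + u ^ (3 / 5 : ℝ) ≤ u - mu * K →
    u ^ (1 / 4 : ℝ) ≤ t → |Gd (B (t + K)) u - PJ K (Gd (B t)) u| ≤ C / u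

/-- FMEQF: the classes modulo `3 ^ r`. -/
def FMEQFStatement : Prop :=
  ∀ r : ℕ, ∃ C u₀ : ℝ, 0 < C ∧ ∀ (d : Bool) (B : ℕ → Set ℕ) (lo t : ℕ) (u : ℝ)
    (ρ : ZMod (3 ^ r)), u₀ ≤ u → (lo : ℝ) ≤ 9 / 10 * u → InvF d B lo → u ^ (1 / 4 : ℝ) ≤ t →
    |3 ^ r * Gd {N : ℕ | N ∈ B t ∧ (N : ZMod (3 ^ r)) = ρ} u - Gd (B t) u| ≤ C / u

/-- `t u` steps from the height `u` (base 2 logarithm), deviation `z`. -/
def AsymT (z : ℝ) (t : ℝ → ℕ) : Prop :=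
  Tendsto (fun u : ℝ => (mu * t u - u) / (th / 2 * √(u / mu))) atTop (𝓝 z)

/-- The numbers that reach `W` in at most `t` steps. -/
def Rch (d : Bool) (W : Set ℕ) (t : ℕ) : Set ℕ := {n : ℕ | ∃ k : ℕ, k ≤ t ∧ (T d)^[k] n ∈ W}

/-- The numbers of `S` that fall below `2 ^ lo` in at most `t` steps. -/
def Fll (d : Bool) (S : Set ℕ) (lo t : ℕ) : Set ℕ :=
  {n : ℕ | n ∈ S ∧ ∃ k : ℕ, k ≤ t ∧ (T d)^[k] n < 2 ^ lo}

/-- GB: Gaussian law of the time to reach a finite set, in blocks. -/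
def GBStatement : Prop :=
  ∀ (d : Bool) (W : Set ℕ) (D : ℝ), W.Finite → Tendsto (Gd (Hit d W)) atTop (𝓝 D) →
    ∀ (z : ℝ) (t : ℝ → ℕ), AsymT z t →
      Tendsto (fun u : ℝ => Gd (Rch d W (t u)) u) atTop (𝓝 (D * PhiG z))

/-- GS: Gaussian law of the time to fall below `2 ^ lo u`, in blocks. -/
def GSStatement : Prop :=
  ∀ (d : Bool) (S : Set ℕ) (lo₀ : ℕ) (D : ℝ), InvA d S lo₀ → Tendsto (Gd S) atTop (𝓝 D) →
    ∀ lo : ℝ → ℕ, Tendsto lo atTop atTop → Tendsto (fun u : ℝ => (lo u : ℝ) / √u) atTop (𝓝 0) →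
    ∀ (z : ℝ) (t : ℝ → ℕ), AsymT z t →
      Tendsto (fun u : ℝ => Gd (Fll d S (lo u) (t u)) u) atTop (𝓝 (D * PhiG z))

/-- RES: the classes modulo `2 ^ j * 3 ^ k`, in blocks. -/
def RESStatement : Prop :=
  ∀ (d : Bool) (B : ℝ → ℕ → Set ℕ) (lo t : ℝ → ℕ) (δ : ℝ),
    (∀ᶠ u in atTop, InvF d (B u) (lo u)) → Tendsto (fun u : ℝ => (lo u : ℝ) / u) atTop (𝓝 0) →
    (∀ᶠ u in atTop, u ^ (1 / 3 : ℝ) ≤ t u) →
    (∀ (h : ℝ) (j : ℕ), Tendsto (fun u : ℝ => Gd (B u (t u - j)) (u + h)) atTop (𝓝 δ)) →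
    ∀ j k c : ℕ, Tendsto (fun u : ℝ => Gd {n : ℕ | n ∈ B u (t u) ∧ n ≡ c [MOD 2 ^ j * 3 ^ k]} u)
      atTop (𝓝 (δ / (2 ^ j * 3 ^ k)))

/-! ### Natural densities, natural logarithms -/

/-- `log (4 / 3) / 2`, the mean decrease of `log n` in one step. -/
noncomputable def nu : ℝ := Real.log (4 / 3) / 2

/-- The standard deviation of the total stopping time, divided by `√(log n)`. -/
noncomputable def bb : ℝ := Real.log 3 / (2 * nu * √nu)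

/-- The threshold `log n / nu + z * bb * √(log n)`. -/
noncomputable def thr (z : ℝ) (n : ℕ) : ℝ := Real.log n / nu + z * bb * √(Real.log n)

/-- DG: the law of the time to fall below `g n`, natural density. -/
def DGStatement : Prop :=
  ∀ (d : Bool) (S : Set ℕ) (lo₀ : ℕ) (D : ℝ), InvA d S lo₀ → HasDensN S D →
    ∀ g : ℕ → ℝ, Tendsto g atTop atTop →
    Tendsto (fun n : ℕ => Real.log (g n) / √(Real.log n)) atTop (𝓝 0) →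
    ∀ (z : ℝ) (j k c : ℕ), HasDensN {n : ℕ | n ∈ S ∧ n ≡ c [MOD 2 ^ j * 3 ^ k] ∧
      ∃ t : ℕ, (t : ℝ) ≤ thr z n ∧ (((T d)^[t] n : ℕ) : ℝ) < g n} (D / (2 ^ j * 3 ^ k) * PhiG z)

/-- LINE: almost all trajectories are straight lines, until they fall below `g n`. -/
def LineStatement : Prop :=
  ∀ (d : Bool) (g : ℕ → ℝ), Tendsto g atTop atTop → ∀ ε : ℝ, 0 < ε →
    HasDensN {n : ℕ | ∀ k : ℕ, (∀ j ≤ k, g n ≤ (((T d)^[j] n : ℕ) : ℝ)) →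
      |Real.log ((T d)^[k] n) - (Real.log n - nu * k)| ≤ Real.log n ^ (1 / 2 + ε)} 1

/-- NORMAL: almost all trajectories are equidistributed modulo `2 ^ l`, until they fall below
`g n`. -/
def NormalStatement : Prop :=
  ∀ (d : Bool) (g : ℕ → ℝ), Tendsto g atTop atTop → ∀ (l a : ℕ) (ε : ℝ), 0 < ε →
    HasDensN {n : ℕ | ∀ k : ℕ, (∀ j < k, g n ≤ (((T d)^[j] n : ℕ) : ℝ)) →
      |((((range k).filter fun j => (T d)^[j] n ≡ a [MOD 2 ^ l]).card : ℕ) : ℝ) -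
        (k : ℝ) / 2 ^ l| ≤ ε * Real.log n} 1

/-- The first iterate of `N` below `2 ^ a` lies in `E`. -/
def HB (d : Bool) (a : ℕ) (E : Set ℕ) : Set ℕ :=
  {N : ℕ | ∃ i : ℕ, (T d)^[i] N < 2 ^ a ∧ (∀ j < i, 2 ^ a ≤ (T d)^[j] N) ∧ (T d)^[i] N ∈ E}

open Classical in
/-- BC: the first passages below all the levels avoid small sets of residue classes. -/
def BCStatement : Prop :=
  ∃ a₀ : ℕ, ∀ (d : Bool) (E : ℕ → Set ℕ) (C : ℝ),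
    (∀ a, a₀ ≤ a → ∃ k : ℕ, k ≤ a / 20 ∧ (∀ m n : ℕ, m ≡ n [MOD 2 ^ k] → (m ∈ E a ↔ n ∈ E a)) ∧
      (((range (2 ^ k)).filter fun r => r ∈ E a).card : ℝ) ≤ C / a ^ 3 * 2 ^ k) →
    ∀ l : ℕ → ℕ, Tendsto l atTop atTop →
      HasDensN {N : ℕ | ∀ a : ℕ, l N ≤ a → a ≤ Nat.log 2 N + 1 → N ∉ HB d a (E a)} 1

/-- The conditions on the path: the increments of `log n` over the time intervals
`[s i * log n, s (i + 1) * log n]`, `i < r`, and the time to reach `W` from the last one. -/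
def PathC (d : Bool) (W : Set ℕ) (r : ℕ) (s z : ℕ → ℝ) (n : ℕ) : Prop :=
  (∀ i < r, Real.log ((T d)^[⌊s (i + 1) * Real.log n⌋₊] n) -
      Real.log ((T d)^[⌊s i * Real.log n⌋₊] n) + nu * (s (i + 1) - s i) * Real.log n ≤
      z i * (Real.log 3 / 2) * √((s (i + 1) - s i) * Real.log n)) ∧
  ∃ t : ℕ, (t : ℝ) ≤ ⌊s r * Real.log n⌋₊ + Real.log ((T d)^[⌊s r * Real.log n⌋₊] n) / nu +
      z r * bb * √((1 - nu * s r) * Real.log n) ∧ (T d)^[t] n ∈ W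

/-- DW: the joint law of the path and of the total stopping time, natural density. -/
def DWStatement : Prop :=
  ∀ (d : Bool) (W : Set ℕ) (D : ℝ), W.Finite → HasDensN (Hit d W) D →
    ∀ (r : ℕ) (s z : ℕ → ℝ), s 0 = 0 → (∀ i < r, s i < s (i + 1)) → nu * s r < 1 →
    ∀ j k c : ℕ, HasDensN {n : ℕ | n ≡ c [MOD 2 ^ j * 3 ^ k] ∧ PathC d W r s z n}
      (D / (2 ^ j * 3 ^ k) * ∏ i ∈ range (r + 1), PhiG (z i))

end Pool.Agent.Lib.MP_edb5be_nt.TS
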